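import Pool.Agent.H71.ASF.StmtsM

/-!
# Module BAS of project ASF: the base case (Kreknin argument for alternative algebras)
-/

namespace ASF

universe u

namespace BAS

variable {R : Type} [CommRing R] {A : Type u} [NonUnitalNonAssocRing A] [Module R A]
variable {q : ℕ}

/-- the derived family -/
def dF (Y : ZMod q → Submodule R A) : ZMod q → Submodule R A := fun i =>
  Submodule.span R {z | ∃ a b : ZMod q, a + b = i ∧ ∃ x ∈ Y a, ∃ y ∈ Y b, z = x * y}

/-- iterated derived family -/
def itF (Y : ZMod q → Submodule R A) : ℕ → ZMod q → Submodule R A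
  | 0 => Y
  | n + 1 => dF (itF Y n)

theorem itF_add (Y : ZMod q → Submodule R A) (m n : ℕ) :
    itF Y (m + n) = itF (itF Y m) n := by
  induction n with
  | zero => rfl
  | succ n ih =>
    change dF (itF Y (m + n)) = dF (itF (itF Y m) n)
    rw [ih]

/-- closed families -/
structure Cl (Y : ZMod q → Submodule R A) : Prop where
  mul : ∀ i j, ∀ x ∈ Y i, ∀ y ∈ Y j, x * y ∈ Y (i + j)
  zero : Y 0 = ⊥

theorem dF_le {Y : ZMod q → Submodule R A} (h : Cl Y) (i : ZMod q) : dF Y i ≤ Y i := by
  refine Submodule.span_le.2 ?_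
  rintro z ⟨a, b, hab, x, hx, y, hy, rfl⟩
  rw [← hab]
  exact h.mul a b x hx y hy

theorem cl_dF {Y : ZMod q → Submodule R A} (h : Cl Y) : Cl (dF Y) where
  mul := by
    intro i j x hx y hy
    exact Submodule.subset_span ⟨i, j, rfl, x, dF_le h i hx, y, dF_le h j hy, rfl⟩
  zero := by
    rw [eq_bot_iff, ← h.zero]
    exact dF_le h 0

theorem cl_itF {Y : ZMod q → Submodule R A} (h : Cl Y) (n : ℕ) : Cl (itF Y n) := by
  induction n with
  | zero => exact h
  | succ n ih => exact cl_dF ih

theorem itF_le {Y : ZMod q → Submodule R A} (h : Cl Y) (n : ℕ) (i : ZMod q) :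
    itF Y n i ≤ Y i := by
  induction n with
  | zero => exact le_refl _
  | succ n ih => exact (dF_le (cl_itF h n) i).trans ih

/-- the homogeneous parts of the subalgebra generated by the `Y j`, `k ≤ j` -/
inductive Gen (Y : ZMod q → Submodule R A) (k : ℕ) : ZMod q → A → Prop
  | base (j : ZMod q) (x : A) : k ≤ j.val → x ∈ Y j → Gen Y k j x
  | mul (a b : ZMod q) (x y : A) : Gen Y k a x → Gen Y k b y → Gen Y k (a + b) (x * y)
  | add (a : ZMod q) (x y : A) : Gen Y k a x → Gen Y k a y → Gen Y k a (x + y)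
  | smul (a : ZMod q) (r : R) (x : A) : Gen Y k a x → Gen Y k a (r • x)
  | zero (a : ZMod q) : Gen Y k a 0

theorem gen_mem {Y : ZMod q → Submodule R A} (h : Cl Y) {k : ℕ} {j : ZMod q} {x : A}
    (hx : Gen Y k j x) : x ∈ Y j := by
  induction hx with
  | base j x _ hx => exact hx
  | mul a b x y _ _ ihx ihy => exact h.mul a b x ihx y ihy
  | add a x y _ _ ihx ihy => exact (Y a).add_mem ihx ihy
  | smul a r x _ ih => exact (Y a).smul_mem r ih
  | zero a => exact (Y a).zero_mem

/-- the span of products with a generator -/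
def SS (Y : ZMod q → Submodule R A) (k : ℕ) (t : ZMod q) : Submodule R A :=
  Submodule.span R {z | ∃ d : ZMod q, k ≤ d.val ∧ ∃ e ∈ Y d, ∃ w ∈ Y (t - d),
    z = w * e ∨ z = e * w}

variable [IsScalarTower R A A] [SMulCommClass R A A]

theorem key [Alt A] {Y : ZMod q → Submodule R A} (h : Cl Y) {k : ℕ} {j : ZMod q} {v : A}
    (hv : Gen Y k j v) : ∀ i : ZMod q, ∀ u ∈ Y i,
    u * v ∈ SS Y k (i + j) ∧ v * u ∈ SS Y k (i + j) := by
  induction hv with
  | base j x hj hx =>
    intro i u hu
    have hu' : u ∈ Y (i + j - j) := by rw [add_sub_cancel_right]; exact hu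
    exact ⟨Submodule.subset_span ⟨j, hj, x, hx, u, hu', Or.inl rfl⟩,
      Submodule.subset_span ⟨j, hj, x, hx, u, hu', Or.inr rfl⟩⟩
  | mul a b x y hx hy ihx ihy =>
    intro i u hu
    have hxm := gen_mem h hx
    have hym := gen_mem h hy
    have hL : ∀ p r s : A, p * (r * s) = (p * r + r * p) * s - r * (p * s) := by
      intro p r s
      have h1 := Alt.left (p + r) s
      have h2 := Alt.left p s
      have h3 := Alt.left r s
      have h4 : p * (p * s) + p * (r * s) + (r * (p * s) + r * (r * s)) =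
          (p * p) * s + (p * r) * s + ((r * p) * s + (r * r) * s) := by
        simp only [add_mul, mul_add] at h1
        rw [← sub_eq_zero] at h1 ⊢
        rw [← h1]; abel
      rw [h2, h3] at h4
      rw [add_mul]
      rw [← sub_eq_zero] at h4 ⊢
      rw [← h4]; abel
    have hR : ∀ p r s : A, (r * s) * p = r * (s * p + p * s) - (r * p) * s := by
      intro p r s
      have h1 := Alt.right (p + s) r
      have h2 := Alt.right p r
      have h3 := Alt.right s r
      have h4 : (r * p) * p + (r * p) * s + ((r * s) * p + (r * s) * s) =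
          r * (p * p) + r * (p * s) + (r * (s * p) + r * (s * s)) := by
        simp only [add_mul, mul_add] at h1
        rw [← sub_eq_zero] at h1 ⊢
        rw [← h1]; abel
      rw [h2, h3] at h4
      rw [mul_add]
      rw [← sub_eq_zero] at h4 ⊢
      rw [← h4]; abel
    constructor
    · rw [hL u x y]
      refine Submodule.sub_mem _ ?_ ?_
      · have h1 : u * x + x * u ∈ Y (i + a) := by
          refine (Y (i + a)).add_mem (h.mul i a u hu x hxm) ?_
          rw [add_comm i a]; exact h.mul a i x hxm u hu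
        have h2 := (ihy (i + a) _ h1).1
        rwa [add_assoc] at h2
      · have h1 : u * y ∈ Y (i + b) := h.mul i b u hu y hym
        have h2 := (ihx (i + b) _ h1).2
        rwa [add_assoc, add_comm b a] at h2
    · rw [hR u x y]
      refine Submodule.sub_mem _ ?_ ?_
      · have h1 : y * u + u * y ∈ Y (i + b) := by
          refine (Y (i + b)).add_mem ?_ (h.mul i b u hu y hym)
          rw [add_comm i b]; exact h.mul b i y hym u hu
        have h2 := (ihx (i + b) _ h1).2
        rwa [add_assoc, add_comm b a] at h2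
      · have h1 : x * u ∈ Y (i + a) := by
          rw [add_comm i a]; exact h.mul a i x hxm u hu
        have h2 := (ihy (i + a) _ h1).1
        rwa [add_assoc] at h2
  | add a x y _ _ ihx ihy =>
    intro i u hu
    rw [mul_add, add_mul]
    exact ⟨Submodule.add_mem _ (ihx i u hu).1 (ihy i u hu).1,
      Submodule.add_mem _ (ihx i u hu).2 (ihy i u hu).2⟩
  | smul a r x _ ih =>
    intro i u hu
    rw [mul_smul_comm, smul_mul_assoc]
    exact ⟨Submodule.smul_mem _ r (ih i u hu).1, Submodule.smul_mem _ r (ih i u hu).2⟩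
  | zero a =>
    intro i u _
    rw [mul_zero, zero_mul]
    exact ⟨Submodule.zero_mem _, Submodule.zero_mem _⟩

theorem gen_SS {Y : ZMod q → Submodule R A} [NeZero q] (h : Cl Y) {k : ℕ} (hk : k < q)
    {z : A} (hz : z ∈ SS Y k (k : ZMod q)) : Gen Y (k + 1) (k : ZMod q) z := by
  refine Submodule.span_induction ?_ ?_ ?_ ?_ hz
  · rintro z ⟨d, hd, e, he, w, hw, hz⟩
    rcases Nat.lt_or_ge k d.val with hlt | hge
    · have hval : k + 1 ≤ ((k : ZMod q) - d).val := by
        have hdq : d.val < q := ZMod.val_lt d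
        have h1 : ((k : ZMod q) - d) = ((q + k - d.val : ℕ) : ZMod q) := by
          rw [Nat.cast_sub (by omega), Nat.cast_add, ZMod.natCast_self, zero_add,
            ZMod.natCast_zmod_val]
        rw [h1, ZMod.val_natCast, Nat.mod_eq_of_lt (by omega)]
        omega
      have hg1 : Gen Y (k + 1) d e := Gen.base d e hlt he
      have hg2 : Gen Y (k + 1) ((k : ZMod q) - d) w := Gen.base _ w hval hw
      rcases hz with rfl | rfl
      · have := Gen.mul _ _ _ _ hg2 hg1
        rwa [sub_add_cancel] at this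
      · have := Gen.mul _ _ _ _ hg1 hg2
        rwa [add_sub_cancel] at this
    · have hdk : d = (k : ZMod q) := by
        have : d.val = k := le_antisymm hge hd
        rw [← this, ZMod.natCast_zmod_val]
      have hw0 : w = 0 := by
        rw [hdk, sub_self, h.zero] at hw
        exact (Submodule.mem_bot R).1 hw
      rcases hz with rfl | rfl
      · rw [hw0, zero_mul]; exact Gen.zero _
      · rw [hw0, mul_zero]; exact Gen.zero _
  · exact Gen.zero _
  · intro x y _ _ hx hy
    exact Gen.add _ _ _ hx hy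
  · intro r x _ hx
    exact Gen.smul _ _ _ hx

theorem gen_mono {Y Y' : ZMod q → Submodule R A} {k l : ℕ}
    (h : ∀ j : ZMod q, k ≤ j.val → ∀ x ∈ Y j, Gen Y' l j x) {j : ZMod q} {x : A}
    (hx : Gen Y k j x) : Gen Y' l j x := by
  induction hx with
  | base j x hj hx => exact h j hj x hx
  | mul a b x y _ _ ihx ihy => exact Gen.mul _ _ _ _ ihx ihy
  | add a x y _ _ ihx ihy => exact Gen.add _ _ _ ihx ihy
  | smul a r x _ ih => exact Gen.smul _ _ _ ih
  | zero a => exact Gen.zero _

theorem main [Alt A] [NeZero q] (k : ℕ) (hk1 : 1 ≤ k) (hkq : k ≤ q) :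
    ∃ m : ℕ, ∀ Y : ZMod q → Submodule R A, Cl Y → ∀ i : ZMod q, ∀ x ∈ itF Y m i,
      Gen Y k i x := by
  induction k, hk1 using Nat.le_induction with
  | base =>
    refine ⟨0, fun Y hY i x hx => ?_⟩
    by_cases hi : i = 0
    · subst hi
      have hx0 : x = 0 := by
        have hx' : x ∈ Y 0 := hx
        rw [hY.zero] at hx'
        exact (Submodule.mem_bot R).1 hx'
      rw [hx0]; exact Gen.zero _
    · refine Gen.base i x ?_ hx
      rw [Nat.one_le_iff_ne_zero]
      intro h0
      exact hi ((ZMod.val_eq_zero i).1 h0)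
  | succ k hk1 ih =>
    obtain ⟨m, hm⟩ := ih (by omega)
    refine ⟨(m + 1) + m, fun Y hY i x hx => ?_⟩
    rw [itF_add] at hx
    have hY' : Cl (itF Y (m + 1)) := cl_itF hY (m + 1)
    have h1 := hm (itF Y (m + 1)) hY' i x hx
    refine gen_mono ?_ h1
    intro j hj y hy
    rcases Nat.lt_or_ge k j.val with hlt | hge
    · exact Gen.base j y hlt (itF_le hY (m + 1) j hy)
    · have hjk : j = (k : ZMod q) := by
        have : j.val = k := le_antisymm hge hj
        rw [← this, ZMod.natCast_zmod_val]
      subst hjk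
      refine gen_SS hY (by omega) ?_
      have hy' : y ∈ dF (itF Y m) (k : ZMod q) := hy
      refine (Submodule.span_le.2 ?_ : dF (itF Y m) (k : ZMod q) ≤ SS Y k (k : ZMod q)) hy'
      rintro z ⟨a, b, hab, u, hu, v, hv, rfl⟩
      have hu' : u ∈ Y a := itF_le hY m a hu
      have hv' : Gen Y k b v := hm Y hY b v hv
      have := (key hY hv' a u hu').1
      rw [hab] at this
      exact this

theorem gen_top {Y : ZMod q → Submodule R A} [NeZero q] {j : ZMod q} {x : A}
    (hx : Gen Y q j x) : x = 0 := by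
  induction hx with
  | base j x hj _ => exact absurd (ZMod.val_lt j) (not_lt.2 hj)
  | mul a b x y _ _ ihx ihy => rw [ihx, zero_mul]
  | add a x y _ _ ihx ihy => rw [ihx, ihy, add_zero]
  | smul a r x _ ih => rw [ih, smul_zero]
  | zero a => rfl

theorem der_le (𝒜 : ZMod q → Submodule R A) (hsup : ⨆ i, 𝒜 i = ⊤) (n : ℕ) :
    der (⊤ : Submodule R A) n ≤ ⨆ i, itF 𝒜 n i := by
  induction n with
  | zero => exact hsup.ge
  | succ n ih =>
    refine Submodule.span_le.2 ?_
    rintro z ⟨x, hx, y, hy, rfl⟩
    have hx' := ih hx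
    have hy' := ih hy
    change x * y ∈ ⨆ i, dF (itF 𝒜 n) i
    refine Submodule.iSup_induction (motive := fun x => x * y ∈ ⨆ i, dF (itF 𝒜 n) i) _ hx'
      ?_ ?_ ?_
    · intro i x hx
      refine Submodule.iSup_induction (motive := fun y => x * y ∈ ⨆ i, dF (itF 𝒜 n) i) _ hy'
        ?_ ?_ ?_
      · intro j y hy
        exact Submodule.mem_iSup_of_mem (i + j)
          (Submodule.subset_span ⟨i, j, rfl, x, hx, y, hy, rfl⟩)
      · rw [mul_zero]; exact Submodule.zero_mem _
      · intro y1 y2 h1 h2
        rw [mul_add]; exact Submodule.add_mem _ h1 h2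
    · rw [zero_mul]; exact Submodule.zero_mem _
    · intro x1 x2 h1 h2
      rw [add_mul]; exact Submodule.add_mem _ h1 h2

end BAS

theorem bas : BASStmt.{u} := by
  intro R _ A _ _ _ _ _ q _ 𝒜 hG h0
  obtain ⟨m, hm⟩ := BAS.main (R := R) (A := A) (q := q) q
    (Nat.one_le_iff_ne_zero.2 (NeZero.ne q)) le_rfl
  have hcl : BAS.Cl 𝒜 := ⟨hG.mul, h0⟩
  refine ⟨m, ?_⟩
  rw [eq_bot_iff]
  refine (BAS.der_le 𝒜 hG.sup m).trans ?_
  refine iSup_le fun i x hx => ?_
  exact (Submodule.mem_bot R).2 (BAS.gen_top (hm 𝒜 hcl i x hx))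

end ASF
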