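import Pool.Agent.H71.ASF.StmtsM

/-!
# Module TNI of project ASF: the ideal generated by the homogeneous nuclear elements
-/

namespace ASF

universe u

namespace TNI

variable {R : Type} [CommRing R] {A : Type u} [NonUnitalNonAssocRing A] [Module R A]
variable {q : ℕ}

/-- product of a list of elements with an element -/
def lp : List (ZMod q × A) → A → A
  | [], a => a
  | p :: l, a => p.2 * lp l a

/-- lists of homogeneous nuclear elements with their degrees -/
def Adm (𝒜 : ZMod q → Submodule R A) (l : List (ZMod q × A)) : Prop :=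
  ∀ p ∈ l, Nuc p.2 ∧ p.2 ∈ 𝒜 p.1

/-- span of the products of `k` homogeneous nuclear elements with an element -/
def QQ (𝒜 : ZMod q → Submodule R A) (k : ℕ) : Submodule R A :=
  Submodule.span R {z | ∃ l : List (ZMod q × A), Adm 𝒜 l ∧ l.length = k ∧
    ∃ i, ∃ a ∈ 𝒜 i, z = lp l a}

theorem lp_add (l : List (ZMod q × A)) (a b : A) : lp l (a + b) = lp l a + lp l b := by
  induction l with
  | nil => rfl
  | cons p l ih =>
    change p.2 * lp l (a + b) = p.2 * lp l a + p.2 * lp l b
    rw [ih, mul_add]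

theorem lp_zero (l : List (ZMod q × A)) : lp l (0 : A) = 0 := by
  induction l with
  | nil => rfl
  | cons p l ih =>
    change p.2 * lp l 0 = 0
    rw [ih, mul_zero]

theorem lp_mul (l : List (ZMod q × A)) (hl : ∀ p ∈ l, Nuc p.2) (a b : A) :
    lp l a * b = lp l (a * b) := by
  induction l with
  | nil => rfl
  | cons p l ih =>
    change (p.2 * lp l a) * b = p.2 * lp l (a * b)
    have h1 := hl p (List.mem_cons_self) (lp l a) b
    unfold asc at h1
    rw [sub_eq_zero.1 h1, ih (fun p' hp' => hl p' (List.mem_cons_of_mem _ hp'))]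

section

variable [SMulCommClass R A A]

theorem lp_smul (l : List (ZMod q × A)) (r : R) (a : A) : lp l (r • a) = r • lp l a := by
  induction l with
  | nil => rfl
  | cons p l ih =>
    change p.2 * lp l (r • a) = r • (p.2 * lp l a)
    rw [ih, mul_smul_comm]

theorem lp_mem {𝒜 : ZMod q → Submodule R A} (hsup : ⨆ i, 𝒜 i = ⊤)
    {l : List (ZMod q × A)} (hl : Adm 𝒜 l) (a : A) : lp l a ∈ QQ 𝒜 l.length := by
  have ha : a ∈ ⨆ i, 𝒜 i := by rw [hsup]; exact Submodule.mem_top
  refine Submodule.iSup_induction (motive := fun a => lp l a ∈ QQ 𝒜 l.length) _ ha ?_ ?_ ?_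
  · intro i a ha
    exact Submodule.subset_span ⟨l, hl, rfl, i, a, ha, rfl⟩
  · rw [lp_zero]; exact Submodule.zero_mem _
  · intro x y hx hy
    rw [lp_add]; exact Submodule.add_mem _ hx hy

theorem nuc_mul_mem {𝒜 : ZMod q → Submodule R A} {n : A} {i : ZMod q}
    (hn : Nuc n) (hi : n ∈ 𝒜 i) {k : ℕ} {x : A} (hx : x ∈ QQ 𝒜 k) :
    n * x ∈ QQ 𝒜 (k + 1) := by
  refine Submodule.span_induction ?_ ?_ ?_ ?_ hx
  · rintro z ⟨l, hl, hlen, j, a, ha, rfl⟩
    refine Submodule.subset_span ⟨(i, n) :: l, ?_, by simp [hlen], j, a, ha, rfl⟩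
    intro p hp
    rcases List.mem_cons.1 hp with rfl | hp
    · exact ⟨hn, hi⟩
    · exact hl p hp
  · rw [mul_zero]; exact Submodule.zero_mem _
  · intro x y _ _ hx hy
    rw [mul_add]; exact Submodule.add_mem _ hx hy
  · intro r x _ hx
    rw [mul_smul_comm]; exact Submodule.smul_mem _ r hx

theorem QQ_zero {𝒜 : ZMod q → Submodule R A} (hsup : ⨆ i, 𝒜 i = ⊤) (a : A) :
    a ∈ QQ 𝒜 0 :=
  lp_mem hsup (l := []) (fun p hp => absurd hp (List.not_mem_nil)) a

theorem lp_QQ {𝒜 : ZMod q → Submodule R A} {l : List (ZMod q × A)} (hl : Adm 𝒜 l)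
    {m : ℕ} {x : A} (hx : x ∈ QQ 𝒜 m) : lp l x ∈ QQ 𝒜 (l.length + m) := by
  induction l with
  | nil =>
    change x ∈ QQ 𝒜 (0 + m)
    rwa [zero_add]
  | cons p l ih =>
    have hp := hl p (List.mem_cons_self)
    have h1 := ih (fun p' hp' => hl p' (List.mem_cons_of_mem _ hp'))
    have h2 := nuc_mul_mem hp.1 hp.2 h1
    have h3 : (p :: l).length + m = l.length + m + 1 := by
      rw [List.length_cons]; omega
    rw [h3]
    exact h2

end

theorem left_mul (h1 : TNUStmt.{u}) [IsScalarTower R A A] [SMulCommClass R A A] [Alt A]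
    {𝒜 : ZMod q → Submodule R A}
    (hG : Grd q 𝒜) (k : ℕ) : ∀ (i : ZMod q), ∀ a ∈ 𝒜 i, ∀ x ∈ QQ 𝒜 k, a * x ∈ QQ 𝒜 k := by
  induction k with
  | zero => intro i a _ x _; exact QQ_zero hG.sup _
  | succ k ih =>
    intro i a ha x hx
    refine Submodule.span_induction ?_ ?_ ?_ ?_ hx
    · rintro z ⟨l, hl, hlen, j, c, hc, rfl⟩
      cases l with
      | nil => simp at hlen
      | cons p l =>
        have hp := hl p (List.mem_cons_self)
        have hl' : Adm 𝒜 l := fun p' hp' => hl p' (List.mem_cons_of_mem _ hp')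
        have hlen' : l.length = k := by simpa using hlen
        change a * (p.2 * lp l c) ∈ QQ 𝒜 (k + 1)
        have hy : lp l c ∈ QQ 𝒜 k := hlen' ▸ lp_mem hG.sup hl' c
        have hn := h1 A p.2 hp.1 a (lp l c) 0
        have e1 : (a * p.2) * lp l c = a * (p.2 * lp l c) := by
          have := hn.1
          unfold asc at this
          exact sub_eq_zero.1 this
        have e2 : (p.2 * a) * lp l c = p.2 * (a * lp l c) := by
          have := hp.1 a (lp l c)
          unfold asc at this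
          exact sub_eq_zero.1 this
        have e3 : a * (p.2 * lp l c) =
            p.2 * (a * lp l c) + (-(cm p.2 a)) * lp l c := by
          unfold cm
          rw [← e1, ← e2, neg_mul, sub_mul]
          abel
        rw [e3]
        refine Submodule.add_mem _ ?_ ?_
        · exact nuc_mul_mem hp.1 hp.2 (ih i a ha _ hy)
        · have hnc : Nuc (cm p.2 a) := hn.2.2.1
          have hnc' : Nuc (-(cm p.2 a)) := (h1 A (cm p.2 a) hnc 0 0 0).2.2.2.2.2.2.1
          have hdeg : -(cm p.2 a) ∈ 𝒜 (i + p.1) := by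
            refine (𝒜 (i + p.1)).neg_mem ?_
            unfold cm
            refine (𝒜 (i + p.1)).sub_mem ?_ (hG.mul i p.1 a ha _ hp.2)
            rw [add_comm]
            exact hG.mul p.1 i _ hp.2 a ha
          exact nuc_mul_mem hnc' hdeg hy
    · rw [mul_zero]; exact Submodule.zero_mem _
    · intro x y _ _ hx hy
      rw [mul_add]; exact Submodule.add_mem _ hx hy
    · intro r x _ hx
      rw [mul_smul_comm]; exact Submodule.smul_mem _ r hx

theorem left_mul_all (h1 : TNUStmt.{u}) [IsScalarTower R A A] [SMulCommClass R A A] [Alt A]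
    {𝒜 : ZMod q → Submodule R A}
    (hG : Grd q 𝒜) (k : ℕ) (a x : A) (hx : x ∈ QQ 𝒜 k) : a * x ∈ QQ 𝒜 k := by
  have ha : a ∈ ⨆ i, 𝒜 i := by rw [hG.sup]; exact Submodule.mem_top
  refine Submodule.iSup_induction (motive := fun a => a * x ∈ QQ 𝒜 k) _ ha ?_ ?_ ?_
  · intro i a ha
    exact left_mul h1 hG k i a ha x hx
  · rw [zero_mul]; exact Submodule.zero_mem _
  · intro y z hy hz
    rw [add_mul]; exact Submodule.add_mem _ hy hz

theorem right_mul [IsScalarTower R A A] [SMulCommClass R A A]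
    {𝒜 : ZMod q → Submodule R A} (hG : Grd q 𝒜) (k : ℕ) (x b : A)
    (hx : x ∈ QQ 𝒜 k) : x * b ∈ QQ 𝒜 k := by
  refine Submodule.span_induction ?_ ?_ ?_ ?_ hx
  · rintro z ⟨l, hl, hlen, j, a, _, rfl⟩
    rw [lp_mul l (fun p hp => (hl p hp).1), ← hlen]
    exact lp_mem hG.sup hl _
  · rw [zero_mul]; exact Submodule.zero_mem _
  · intro x y _ _ hx hy
    rw [add_mul]; exact Submodule.add_mem _ hx hy
  · intro r x _ hx
    rw [smul_mul_assoc]; exact Submodule.smul_mem _ r hx

theorem QQ_mul (h1 : TNUStmt.{u}) [IsScalarTower R A A] [SMulCommClass R A A] [Alt A]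
    {𝒜 : ZMod q → Submodule R A}
    (hG : Grd q 𝒜) (k m : ℕ) (x y : A) (hx : x ∈ QQ 𝒜 k) (hy : y ∈ QQ 𝒜 m) :
    x * y ∈ QQ 𝒜 (k + m) := by
  refine Submodule.span_induction ?_ ?_ ?_ ?_ hx
  · rintro z ⟨l, hl, hlen, j, a, _, rfl⟩
    rw [lp_mul l (fun p hp => (hl p hp).1), ← hlen]
    exact lp_QQ hl (left_mul_all h1 hG m a y hy)
  · rw [zero_mul]; exact Submodule.zero_mem _
  · intro x y _ _ hx hy
    rw [add_mul]; exact Submodule.add_mem _ hx hy
  · intro r x _ hx
    rw [smul_mul_assoc]; exact Submodule.smul_mem _ r hx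

/-- iterated products with elements of `E` -/
def TT (E : Set A) : ℕ → Set A
  | 0 => Set.univ
  | n + 1 => {x | ∃ c ∈ E, ∃ z ∈ TT E n, x = c * z}

/-- nuclear elements of a term of the derived series -/
def EE (C : Submodule R A) (k : ℕ) : Set A := {c | Nuc c ∧ c ∈ der C k}

theorem TT_two (h1 : TNUStmt.{u}) [Alt A] (C : Submodule R A) (k m : ℕ) :
    TT (EE C k) (2 * m) ⊆ TT (EE C (k + 1)) m := by
  induction m with
  | zero => intro x _; exact Set.mem_univ x
  | succ m ih =>
    intro x hx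
    have h2 : 2 * (m + 1) = 2 * m + 1 + 1 := by ring
    rw [h2] at hx
    obtain ⟨c, hc, z, ⟨d, hd, w, hw, rfl⟩, rfl⟩ := hx
    refine ⟨c * d, ⟨(h1 A c hc.1 0 0 0).2.2.2.2.1 d hd.1, ?_⟩, w, ih hw, ?_⟩
    · exact Submodule.subset_span ⟨c, hc.2, d, hd.2, rfl⟩
    · have := hc.1 d w
      unfold asc at this
      exact (sub_eq_zero.1 this).symm

theorem TT_pow (h1 : TNUStmt.{u}) [Alt A] (C : Submodule R A) (j : ℕ) :
    ∀ i : ℕ, TT (EE C i) (2 ^ j) ⊆ TT (EE C (i + j)) 1 := by
  induction j with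
  | zero => intro i x hx; exact hx
  | succ j ih =>
    intro i x hx
    rw [pow_succ, mul_comm] at hx
    have h2 := ih (i + 1) (TT_two h1 C i (2 ^ j) hx)
    have h3 : i + 1 + j = i + (j + 1) := by ring
    rwa [h3] at h2

/-- number of prefixes with degree `c - s` -/
def hits [DecidableEq (ZMod q)] (s c : ZMod q) : List (ZMod q × A) → ℕ
  | [] => 0
  | p :: l => (if s + p.1 = c then 1 else 0) + hits (s + p.1) c l

theorem sum_hits [NeZero q] (l : List (ZMod q × A)) : ∀ s : ZMod q,
    ∑ c : ZMod q, hits s c l = l.length := by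
  induction l with
  | nil => intro s; simp [hits]
  | cons p l ih =>
    intro s
    simp only [hits]
    rw [Finset.sum_add_distrib, ih, Finset.sum_ite_eq]
    simp [add_comm]

theorem blocks (h1 : TNUStmt.{u}) [Alt A] {𝒜 : ZMod q → Submodule R A} (hG : Grd q 𝒜)
    (c : ZMod q) (a : A) (l : List (ZMod q × A)) : Adm 𝒜 l →
    (∀ M, M ≤ hits c c l → lp l a ∈ TT (EE (𝒜 0) 0) M) ∧
    (∀ (s : ZMod q) (p : A), Nuc p → p ∈ 𝒜 (s - c) → ∀ M, M ≤ hits s c l →
      p * lp l a ∈ TT (EE (𝒜 0) 0) M) := by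
  induction l with
  | nil =>
    intro _
    constructor
    · intro M hM
      have : M = 0 := by simpa [hits] using hM
      subst this; exact Set.mem_univ _
    · intro s p _ _ M hM
      have : M = 0 := by simpa [hits] using hM
      subst this; exact Set.mem_univ _
  | cons n l ih =>
    intro hl
    have hn := hl n (List.mem_cons_self)
    have hl' : Adm 𝒜 l := fun p' hp' => hl p' (List.mem_cons_of_mem _ hp')
    obtain ⟨ihB, ihA⟩ := ih hl'
    constructor
    · intro M hM
      simp only [hits] at hM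
      by_cases hc : c + n.1 = c
      · rw [if_pos hc, hc] at hM
        cases M with
        | zero => exact Set.mem_univ _
        | succ M =>
          have hn0 : n.1 = 0 := by simpa using hc
          refine ⟨n.2, ⟨hn.1, ?_⟩, lp l a, ihB M (by omega), rfl⟩
          have := hn.2
          rw [hn0] at this
          exact this
      · rw [if_neg hc, zero_add] at hM
        refine ihA (c + n.1) n.2 hn.1 ?_ M hM
        rw [add_sub_cancel_left]
        exact hn.2
    · intro s p hp hpm M hM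
      simp only [hits] at hM
      have hpn : Nuc (p * n.2) := (h1 A p hp 0 0 0).2.2.2.2.1 n.2 hn.1
      have hpd : p * n.2 ∈ 𝒜 (s + n.1 - c) := by
        have := hG.mul _ _ p hpm n.2 hn.2
        have e : s - c + n.1 = s + n.1 - c := by ring
        rwa [e] at this
      have e1 : p * lp (n :: l) a = (p * n.2) * lp l a := by
        have := hp n.2 (lp l a)
        unfold asc at this
        exact (sub_eq_zero.1 this).symm
      rw [e1]
      by_cases hc : s + n.1 = c
      · rw [if_pos hc, hc] at hM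
        cases M with
        | zero => exact Set.mem_univ _
        | succ M =>
          refine ⟨p * n.2, ⟨hpn, ?_⟩, lp l a, ihB M (by omega), rfl⟩
          rw [hc, sub_self] at hpd
          exact hpd
      · rw [if_neg hc, zero_add] at hM
        exact ihA (s + n.1) (p * n.2) hpn hpd M hM

theorem lp_eq_zero (h1 : TNUStmt.{u}) [Alt A] {𝒜 : ZMod q → Submodule R A} (hG : Grd q 𝒜)
    {M : ℕ} (hM : ∀ x ∈ TT (EE (𝒜 0) 0) M, x = 0) (c : ZMod q) (a : A)
    (l : List (ZMod q × A)) : Adm 𝒜 l → ∀ s : ZMod q, M + 1 ≤ hits s c l → lp l a = 0 := by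
  induction l with
  | nil => intro _ s hs; simp [hits] at hs
  | cons n l ih =>
    intro hl s hs
    have hl' : Adm 𝒜 l := fun p' hp' => hl p' (List.mem_cons_of_mem _ hp')
    simp only [hits] at hs
    change n.2 * lp l a = 0
    by_cases hc : s + n.1 = c
    · rw [if_pos hc, hc] at hs
      rw [hM _ ((blocks h1 hG c a l hl').1 M (by omega)), mul_zero]
    · rw [if_neg hc, zero_add] at hs
      rw [ih hl' _ hs, mul_zero]

end TNI

open TNI in
theorem tni (h1 : TNUStmt.{u}) (h2 : IDWStmt.{u}) (_h3 : ISOStmt.{u}) : TNIStmt.{u} := by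
  intro R _ A _ _ _ _ _ q _ 𝒜 hG hS
  obtain ⟨k, hk⟩ := hS
  -- nilpotency
  have hT : ∀ x ∈ TT (EE (𝒜 0) 0) (2 ^ k), x = 0 := by
    intro x hx
    have h4 := TT_pow h1 (𝒜 0) k 0 hx
    rw [zero_add] at h4
    obtain ⟨c, hc, z, _, rfl⟩ := h4
    have hc0 : c = 0 := by
      have := hc.2
      rw [hk] at this
      exact (Submodule.mem_bot R).1 this
    rw [hc0, zero_mul]
  have hL : ∀ l : List (ZMod q × A), Adm 𝒜 l → q * 2 ^ k < l.length → ∀ a, lp l a = 0 := by
    intro l hl hlen a
    by_contra hne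
    have hall : ∀ c : ZMod q, hits 0 c l ≤ 2 ^ k := by
      intro c
      by_contra hcon
      exact hne (lp_eq_zero h1 hG hT c a l hl 0 (by omega))
    have hsum := sum_hits l (0 : ZMod q)
    have : ∑ c : ZMod q, hits 0 c l ≤ ∑ _c : ZMod q, 2 ^ k :=
      Finset.sum_le_sum fun c _ => hall c
    rw [hsum, Finset.sum_const, Finset.card_univ, ZMod.card, smul_eq_mul] at this
    omega
  have hQ : ∀ m : ℕ, q * 2 ^ k < m → QQ 𝒜 m = ⊥ := by
    intro m hm
    rw [eq_bot_iff]
    refine Submodule.span_le.2 ?_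
    rintro z ⟨l, hl, hlen, i, a, _, rfl⟩
    rw [hL l hl (by omega) a]
    exact Submodule.zero_mem _
  -- the ideal
  set S : Set A := {n : A | Nuc n ∧ ∃ i, n ∈ 𝒜 i} with hSdef
  let J : Submodule R A := Submodule.span R S ⊔ QQ 𝒜 1
  have hnQ : ∀ n ∈ S, ∀ a : A, n * a ∈ QQ 𝒜 1 := by
    rintro n ⟨hn, i, hi⟩ a
    exact nuc_mul_mem hn hi (QQ_zero hG.sup a)
  have hspanR : ∀ x ∈ Submodule.span R S, ∀ a : A, x * a ∈ QQ 𝒜 1 := by
    intro x hx a
    refine Submodule.span_induction ?_ ?_ ?_ ?_ hx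
    · intro n hn; exact hnQ n hn a
    · rw [zero_mul]; exact Submodule.zero_mem _
    · intro x y _ _ hx hy
      rw [add_mul]; exact Submodule.add_mem _ hx hy
    · intro r x _ hx
      rw [smul_mul_assoc]; exact Submodule.smul_mem _ r hx
  have hanJ : ∀ n ∈ S, ∀ a : A, a * n ∈ J := by
    rintro n ⟨hn, i, hi⟩ a
    have ha : a ∈ ⨆ i, 𝒜 i := by rw [hG.sup]; exact Submodule.mem_top
    refine Submodule.iSup_induction (motive := fun a => a * n ∈ J) _ ha ?_ ?_ ?_
    · intro j a ha
      have e : a * n = n * a + -(cm n a) := by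
        unfold cm; abel
      rw [e]
      refine Submodule.add_mem _ ?_ ?_
      · exact Submodule.mem_sup_right (hnQ n ⟨hn, i, hi⟩ a)
      · refine Submodule.mem_sup_left (Submodule.subset_span ?_)
        have hnc : Nuc (cm n a) := (h1 A n hn a 0 0).2.2.1
        have hnc' : Nuc (-(cm n a)) := (h1 A (cm n a) hnc 0 0 0).2.2.2.2.2.2.1
        refine ⟨hnc', i + j, (𝒜 (i + j)).neg_mem ?_⟩
        unfold cm
        refine (𝒜 (i + j)).sub_mem (hG.mul i j n hi a ha) ?_
        rw [add_comm]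
        exact hG.mul j i a ha n hi
    · rw [zero_mul]; exact Submodule.zero_mem _
    · intro x y hx hy
      rw [add_mul]; exact Submodule.add_mem _ hx hy
  have hspanL : ∀ x ∈ Submodule.span R S, ∀ a : A, a * x ∈ J := by
    intro x hx a
    refine Submodule.span_induction ?_ ?_ ?_ ?_ hx
    · intro n hn; exact hanJ n hn a
    · rw [mul_zero]; exact Submodule.zero_mem _
    · intro x y _ _ hx hy
      rw [mul_add]; exact Submodule.add_mem _ hx hy
    · intro r x _ hx
      rw [mul_smul_comm]; exact Submodule.smul_mem _ r hx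
  have hJ : IsIdl J := by
    intro x hx a
    obtain ⟨y, hy, z, hz, rfl⟩ := Submodule.mem_sup.1 hx
    constructor
    · rw [mul_add]
      exact Submodule.add_mem _ (hspanL y hy a)
        (Submodule.mem_sup_right (left_mul_all h1 hG 1 a z hz))
    · rw [add_mul]
      exact Submodule.add_mem _ (Submodule.mem_sup_right (hspanR y hy a))
        (Submodule.mem_sup_right (right_mul hG 1 z a hz))
  have hIJ : Idl R S ≤ J :=
    (h2 R A S).2.2.1 J hJ (fun n hn => Submodule.mem_sup_left (Submodule.subset_span hn))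
  have hJJ : ∀ x ∈ J, ∀ y ∈ J, x * y ∈ QQ 𝒜 1 := by
    intro x hx y hy
    obtain ⟨x1, hx1, x2, hx2, rfl⟩ := Submodule.mem_sup.1 hx
    rw [add_mul]
    exact Submodule.add_mem _ (hspanR x1 hx1 y) (right_mul hG 1 x2 y hx2)
  have hder : ∀ j : ℕ, der (Idl R S) (j + 1) ≤ QQ 𝒜 (2 ^ j) := by
    intro j
    induction j with
    | zero =>
      refine Submodule.span_le.2 ?_
      rintro z ⟨x, hx, y, hy, rfl⟩
      exact hJJ x (hIJ hx) y (hIJ hy)
    | succ j ih =>
      refine Submodule.span_le.2 ?_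
      rintro z ⟨x, hx, y, hy, rfl⟩
      have := QQ_mul h1 hG _ _ x y (ih hx) (ih hy)
      have e : 2 ^ j + 2 ^ j = 2 ^ (j + 1) := by ring
      rwa [e] at this
  refine ⟨(q * 2 ^ k + 1) + 1, ?_⟩
  rw [eq_bot_iff]
  refine (hder (q * 2 ^ k + 1)).trans ?_
  rw [hQ _ (lt_trans (Nat.lt_succ_self _) Nat.lt_two_pow_self)]

end ASF
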